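import Mathlib

/-!
# The set-splitting game on an uncountable set

Two players A and B play on an abstract set `E`. The current set is `S 0 = E`. At each stage
`n = 0, 1, 2, …` one player partitions the current set `S n` in two disjoint parts, and the OTHER
player chooses the part `S (n + 1)`. Player A partitions at the even stages (and B chooses), player B
partitions at the odd stages (and A chooses). Player A wins if the intersection of the `S n` is empty.

For countable `E` player A has an obvious winning strategy. We show that player A has no winning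
strategy if `E` is uncountable, whatever the cardinality of `E` is.

Proof. Let a strategy of A be given. Let `T ⊆ E` be a set of cardinality `ℵ₁` and `D 0, D 1, …`
countably many subsets of `E` which separate the points of `T`. We only consider the plays where
B partitions the current set `S` by one of the `D k`. There are only countably many finite
histories of such plays. At each history where B has to partition `S`, there is at most one point of
`S ∩ T` which A drops for every one of the partitions `{S ∩ D k, S \ D k}`: of two points separated
by `D k` the strategy keeps one. So some point `a` of `T` is never such a point, and B can keep it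
forever.
-/

set_option autoImplicit false

namespace Pool.Agent.Results.MP_053b7f_lc.UncountableSets

universe u

/-- One stage of a play: the current set is partitioned in `left` and `right`, and `chosen` is the
part that is chosen by the other player. -/
structure Stage (E : Type u) where
  /-- first part -/
  left : Set E
  /-- second part -/
  right : Set E
  /-- the chosen part -/
  chosen : Set E

/-- The current set after a finite history (the list of the stages so far, the last stage comes
first). At the beginning it is the whole of `E`. -/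
def current {E : Type u} : List (Stage E) → Set E
  | [] => Set.univ
  | s :: _ => s.chosen

/-- The stage `s` is legal after the history `h`: `left` and `right` are disjoint, their union is the
current set, and `chosen` is one of them. -/
def Legal {E : Type u} (h : List (Stage E)) (s : Stage E) : Prop :=
  s.left ∪ s.right = current h ∧ Disjoint s.left s.right ∧
    (s.chosen = s.left ∨ s.chosen = s.right)

/-- A strategy of player A. It tells A, given the history, how to partition the current set, and
which part of a partition `(P, Q)` made by B to choose. -/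
structure Strategy (E : Type u) where
  /-- the partition made by A after the history `h` -/
  split : List (Stage E) → Set E × Set E
  /-- the parts cover the current set -/
  split_union : ∀ h, (split h).1 ∪ (split h).2 = current h
  /-- the parts are disjoint -/
  split_disjoint : ∀ h, Disjoint (split h).1 (split h).2
  /-- the part of the partition `(P, Q)` chosen by A, if B makes it after the history `h` -/
  pick : List (Stage E) → Set E → Set E → Set E
  /-- A chooses one of the two parts -/
  pick_mem : ∀ h P Q, pick h P Q = P ∨ pick h P Q = Q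

/-- The history of the play `m` before stage `n`, the last stage comes first. -/
def history {E : Type u} (m : ℕ → Stage E) : ℕ → List (Stage E)
  | 0 => []
  | n + 1 => m n :: history m n

/-- Player A follows the strategy `σ` in the play `m`: at the even stages A partitions as `σ` says,
at the odd stages A chooses as `σ` says. -/
def Follows {E : Type u} (σ : Strategy E) (m : ℕ → Stage E) : Prop :=
  (∀ k, ((m (2 * k)).left, (m (2 * k)).right) = σ.split (history m (2 * k))) ∧
  (∀ k, (m (2 * k + 1)).chosen =
    σ.pick (history m (2 * k + 1)) (m (2 * k + 1)).left (m (2 * k + 1)).right)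

/-- The strategy `σ` wins for player A: in every legal play `m` in which A follows `σ` the
intersection of the chosen sets is empty. -/
def Winning {E : Type u} (σ : Strategy E) : Prop :=
  ∀ m : ℕ → Stage E, (∀ n, Legal (history m n) (m n)) → Follows σ m →
    ⋂ n, (m n).chosen = ∅

section proof

variable {E : Type u} (σ : Strategy E) (D : ℕ → Set E)

/-- the stage where A partitions and B chooses the first (`true`) or the second part -/
def stA (h : List (Stage E)) (b : Bool) : Stage E :=
  ⟨(σ.split h).1, (σ.split h).2, if b then (σ.split h).1 else (σ.split h).2⟩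

/-- the stage where B partitions with `D k` and A chooses -/
def stB (h : List (Stage E)) (k : ℕ) : Stage E :=
  ⟨current h ∩ D k, current h \ D k, σ.pick h (current h ∩ D k) (current h \ D k)⟩

/-- the history of a play given by a list of codes -/
def hst : List (Bool × ℕ) → List (Stage E)
  | [] => []
  | c :: l => stB σ D (stA σ (hst l) c.1 :: hst l) c.2 :: stA σ (hst l) c.1 :: hst l

/-- the history after the next choice of B -/
def mid (l : List (Bool × ℕ)) (b : Bool) : List (Stage E) := stA σ (hst σ D l) b :: hst σ D l

/-- `a` is stuck at the history given by `l` and `b` -/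
def Stuck (l : List (Bool × ℕ)) (b : Bool) (a : E) : Prop :=
  a ∈ current (mid σ D l b) ∧ ∀ k, a ∉ (stB σ D (mid σ D l b) k).chosen

lemma exists_code (σ : Strategy E) (D : ℕ → Set E) (a : E) (ha : ∀ l b, ¬ Stuck σ D l b a)
    (l : List (Bool × ℕ)) (hl : a ∈ current (hst σ D l)) :
    ∃ c : Bool × ℕ, a ∈ current (mid σ D l c.1) ∧ a ∈ current (hst σ D (c :: l)) := by
  have h1 : ∃ b : Bool, a ∈ current (mid σ D l b) := by
    rw [← σ.split_union] at hl
    rcases hl with hl | hl
    · exact ⟨true, by simpa [mid, stA, current] using hl⟩
    · exact ⟨false, by simpa [mid, stA, current] using hl⟩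
  obtain ⟨b, hb⟩ := h1
  have h2 := ha l b
  rw [Stuck] at h2
  push Not at h2
  obtain ⟨k, hk⟩ := h2 hb
  exact ⟨(b, k), hb, hk⟩

lemma main (T : Set E) (hT : ¬ T.Countable)
    (hD : ∀ a ∈ T, ∀ b ∈ T, a ≠ b → ∃ k, ¬ (a ∈ D k ↔ b ∈ D k)) : ¬ Winning σ := by
  classical
  intro hW
  -- there is a point of `T` which is never stuck
  have h1 : ∃ a ∈ T, ∀ l b, ¬ Stuck σ D l b a := by
    by_contra hcon
    push Not at hcon
    apply hT
    have h2 : T ⊆ ⋃ (p : List (Bool × ℕ) × Bool), {a | a ∈ T ∧ Stuck σ D p.1 p.2 a} := by
      intro a ha
      obtain ⟨l, b, hlb⟩ := hcon a ha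
      exact Set.mem_iUnion.2 ⟨(l, b), ha, hlb⟩
    refine (Set.countable_iUnion fun p => ?_).mono h2
    apply Set.Subsingleton.countable
    rintro a ⟨haT, ha1, ha2⟩ b ⟨hbT, hb1, hb2⟩
    by_contra hab
    obtain ⟨k, hk⟩ := hD a haT b hbT hab
    have h3 := σ.pick_mem (mid σ D p.1 p.2) (current (mid σ D p.1 p.2) ∩ D k)
      (current (mid σ D p.1 p.2) \ D k)
    have ha3 := ha2 k
    have hb3 := hb2 k
    simp only [stB] at ha3 hb3
    rcases h3 with h3 | h3
    · rw [h3] at ha3 hb3
      apply hk
      constructor
      · intro h; exact absurd ⟨ha1, h⟩ ha3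
      · intro h; exact absurd ⟨hb1, h⟩ hb3
    · rw [h3] at ha3 hb3
      have ha4 : a ∈ D k := by
        by_contra h; exact ha3 ⟨ha1, h⟩
      have hb4 : b ∈ D k := by
        by_contra h; exact hb3 ⟨hb1, h⟩
      exact hk ⟨fun _ => hb4, fun _ => ha4⟩
  obtain ⟨a, -, ha⟩ := h1
  -- the codes of the play
  have h2 : ∀ l : {l : List (Bool × ℕ) // a ∈ current (hst σ D l)},
      ∃ c : Bool × ℕ, a ∈ current (mid σ D l.1 c.1) ∧ a ∈ current (hst σ D (c :: l.1)) :=
    fun l => exists_code σ D a ha l.1 l.2
  choose c hc1 hc2 using h2
  let L : ℕ → {l : List (Bool × ℕ) // a ∈ current (hst σ D l)} :=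
    fun n => Nat.rec ⟨[], by simp [hst, current]⟩ (fun _ l => ⟨c l :: l.1, hc2 l⟩) n
  have hL : ∀ n, (L (n + 1)).1 = c (L n) :: (L n).1 := fun n => rfl
  -- the play
  let m : ℕ → Stage E := fun n =>
    if n % 2 = 0 then stA σ (hst σ D (L (n / 2)).1) (c (L (n / 2))).1
    else stB σ D (mid σ D (L (n / 2)).1 (c (L (n / 2))).1) (c (L (n / 2))).2
  have hm0 : ∀ k, m (2 * k) = stA σ (hst σ D (L k).1) (c (L k)).1 := by
    intro k
    have e1 : (2 * k) % 2 = 0 := by omega
    have e2 : (2 * k) / 2 = k := by omega
    simp only [m, e1, e2, if_true]
  have hm1 : ∀ k, m (2 * k + 1) = stB σ D (mid σ D (L k).1 (c (L k)).1) (c (L k)).2 := by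
    intro k
    have e1 : (2 * k + 1) % 2 = 1 := by omega
    have e2 : (2 * k + 1) / 2 = k := by omega
    simp only [m, e1, e2, one_ne_zero, if_false]
  have hh : ∀ k, history m (2 * k) = hst σ D (L k).1 ∧
      history m (2 * k + 1) = mid σ D (L k).1 (c (L k)).1 := by
    intro k
    induction k with
    | zero =>
      have e0 : history m (2 * 0) = hst σ D (L 0).1 := rfl
      refine ⟨e0, ?_⟩
      show m (2 * 0) :: history m (2 * 0) = _
      rw [e0, hm0 0]
      rfl
    | succ k ih =>
      have e0 : history m (2 * (k + 1)) = hst σ D (L (k + 1)).1 := by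
        show m (2 * k + 1) :: history m (2 * k + 1) = _
        rw [ih.2, hm1 k, hL k]
        rfl
      refine ⟨e0, ?_⟩
      show m (2 * (k + 1)) :: history m (2 * (k + 1)) = _
      rw [e0, hm0 (k + 1)]
      rfl
  have hlegal : ∀ n, Legal (history m n) (m n) := by
    intro n
    rcases Nat.even_or_odd' n with ⟨k, rfl | rfl⟩
    · rw [(hh k).1, hm0 k]
      refine ⟨σ.split_union _, σ.split_disjoint _, ?_⟩
      simp only [stA]
      by_cases hb : (c (L k)).1 = true
      · left; simp [hb]
      · right; simp [hb]
    · rw [(hh k).2, hm1 k]
      refine ⟨?_, ?_, σ.pick_mem _ _ _⟩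
      · exact Set.inter_union_sdiff _ _
      · exact Set.disjoint_left.2 fun x hx hx' => hx'.2 hx.2
  have hfol : Follows σ m := by
    constructor
    · intro k
      rw [(hh k).1, hm0 k]
      rfl
    · intro k
      rw [(hh k).2, hm1 k]
      rfl
  have hempty := hW m hlegal hfol
  have hmem : a ∈ ⋂ n, (m n).chosen := by
    refine Set.mem_iInter.2 fun n => ?_
    rcases Nat.even_or_odd' n with ⟨k, rfl | rfl⟩
    · rw [hm0 k]
      exact hc1 (L k)
    · rw [hm1 k]
      exact hc2 (L k)
  rw [hempty] at hmem
  exact hmem

end proof

/-- Player A has no winning strategy in the set-splitting game on an uncountable set. -/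
theorem result (E : Type u) [Uncountable E] : ¬ ∃ σ : Strategy E, Winning σ := by
  rintro ⟨σ, hσ⟩
  -- a subset of cardinality `ℵ₁`
  have h1 : Cardinal.aleph 1 ≤ Cardinal.mk E := by
    rw [← Cardinal.succ_aleph0]
    exact Order.succ_le_of_lt (Cardinal.aleph0_lt_mk_iff.2 inferInstance)
  obtain ⟨T, hT⟩ := Cardinal.le_mk_iff_exists_set.1 h1
  have hTu : ¬ T.Countable := by
    intro h
    have h2 := Cardinal.mk_le_aleph0_iff.2 h.to_subtype
    rw [hT] at h2
    exact absurd h2 (not_le.2 Cardinal.aleph0_lt_aleph_one)
  -- an injection of `T` in the Cantor space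
  have h3 : Cardinal.lift.{0} (Cardinal.mk T) ≤ Cardinal.lift.{u} (Cardinal.mk (ℕ → Bool)) := by
    rw [hT]
    simp only [Cardinal.lift_uzero]
    have h4 : Cardinal.mk (ℕ → Bool) = Cardinal.continuum := by simp
    rw [h4, Cardinal.lift_continuum]
    exact Cardinal.aleph_one_le_continuum
  obtain ⟨e⟩ := Cardinal.lift_mk_le'.1 h3
  refine main σ (fun k => {x | ∃ hx : x ∈ T, e ⟨x, hx⟩ k = true}) T hTu ?_ hσ
  intro a ha b hb hab
  by_contra hcon
  push Not at hcon
  apply hab
  have h5 : e ⟨a, ha⟩ = e ⟨b, hb⟩ := by
    funext k
    have h6 := hcon k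
    simp only [Set.mem_ofPred_eq, ha, hb, exists_true_left] at h6
    exact Bool.eq_iff_iff.2 h6
  have h7 := e.injective h5
  exact congrArg Subtype.val h7

end Pool.Agent.Results.MP_053b7f_lc.UncountableSets
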